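import Pool.Agent.Lib.H42VF

/-! Analogue of Q1 for Poincare complexes of dimension three with virtually free fundamental
group: every finite free product of the indecomposable groups has a balanced presentation. -/

open Pool.Agent.Lib.H91Per Pool.Agent.Lib.H42VF

theorem Pool.Agent.Results.MP_17e1e4_al.VirtuallyFree.result (G : Type) [Group G] (n : ℕ)
    (H : Fin n → Type) [∀ i, Group (H i)] (h : ∀ i, IsFactor (H i))
    (e : G ≃* Monoid.CoprodI H) : Balanced G :=
  balanced_vf G n H h e
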